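import Pool.Agent.Helper97.Tate.Goals

/-! # TATE-COL: unisolvence of points on parallel lines (MP_d3128a_ag). -/

set_option autoImplicit false

namespace Pool.Agent.Helper49.Tate.COL

open Pool.Agent.Helper97.Tate

/-- the set of the values of the lines with smaller index. -/
def lines (P : ℤ) (S : Finset (ℤ × ℤ)) (idx : ℤ → ℕ) (x : ℤ × ℤ) : Finset ℤ :=
  (S.filter fun y => idx (y.1 - P * y.2) < idx (x.1 - P * x.2)).image fun y => y.1 - P * y.2

/-- the other points of the line. -/
def pts (P : ℤ) (S : Finset (ℤ × ℤ)) (x : ℤ × ℤ) : Finset (ℤ × ℤ) :=
  (S.filter fun y => y.1 - P * y.2 = x.1 - P * x.2).erase x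

theorem t (h1 : S_SPN) : S_COL := by
  intro M S P idx hinj hcard a ha
  classical
  have main : ∀ n : ℕ, ∀ x ∈ S, M - idx (x.1 - P * x.2) = n → a x = 0 := by
    intro n
    induction n using Nat.strong_induction_on with
    | _ n ih =>
      intro x hxS hx
      set l1 : List (ℤ × ℤ × ℤ) :=
        ((lines P S idx x).toList.map fun c : ℤ => ((1, -P, -c) : ℤ × ℤ × ℤ)) with hl1
      set l2 : List (ℤ × ℤ × ℤ) :=
        ((pts P S x).toList.map fun y : ℤ × ℤ => ((0, 1, -y.2) : ℤ × ℤ × ℤ)) with hl2
      have hc1 : l1.length ≤ idx (x.1 - P * x.2) := by
        rw [hl1, List.length_map, Finset.length_toList]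
        have : (lines P S idx x).card ≤ (Finset.range (idx (x.1 - P * x.2))).card := by
          refine Finset.card_le_card_of_injOn idx ?_ ?_
          · intro c hc
            simp only [lines, Finset.coe_image, Finset.coe_filter, Set.mem_image,
              Set.mem_ofPred_eq] at hc
            obtain ⟨y, ⟨_, hy⟩, rfl⟩ := hc
            simpa using hy
          · intro c hc c' hc' h
            simp only [lines, Finset.coe_image, Finset.coe_filter, Set.mem_image,
              Set.mem_ofPred_eq] at hc hc'
            obtain ⟨y, ⟨hyS, _⟩, rfl⟩ := hc
            obtain ⟨y', ⟨hyS', _⟩, rfl⟩ := hc'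
            exact hinj y hyS y' hyS' h
        simpa using this
      have hxmem : x ∈ S.filter fun y => y.1 - P * y.2 = x.1 - P * x.2 := by
        simp [hxS]
      have hc2 : l2.length + 1
          = (S.filter fun y => y.1 - P * y.2 = x.1 - P * x.2).card := by
        rw [hl2, List.length_map, Finset.length_toList, pts, Finset.card_erase_add_one hxmem]
      have hk := h1 M S a ha (l1 ++ l2) (by
        have := hcard x hxS
        rw [List.length_append]
        omega)
      have hp : ∀ y : ℤ × ℤ, ((l1 ++ l2).map fun c =>
          ((c.1 * y.1 + c.2.1 * y.2 + c.2.2 : ℤ) : ℚ)).prod =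
          (∏ c ∈ lines P S idx x, (((y.1 - P * y.2) - c : ℤ) : ℚ)) *
            ∏ z ∈ pts P S x, ((y.2 - z.2 : ℤ) : ℚ) := by
        intro y
        rw [List.map_append, List.prod_append]
        congr 1
        · rw [← Finset.prod_map_toList, hl1, List.map_map]
          congr 1
          refine List.map_congr_left fun c _ => ?_
          simp only [Function.comp]
          congr 1
          ring
        · rw [← Finset.prod_map_toList, hl2, List.map_map]
          congr 1
          refine List.map_congr_left fun c _ => ?_
          simp only [Function.comp]
          congr 1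
          ring
      rw [Finset.sum_eq_single x] at hk
      · rcases mul_eq_zero.mp hk with h | h
        · exact h
        · exfalso
          rw [hp] at h
          rcases mul_eq_zero.mp h with h | h
          · rw [Finset.prod_eq_zero_iff] at h
            obtain ⟨c, hc, h0⟩ := h
            have h2 := Int.cast_eq_zero.mp h0
            have h3 : x.1 - P * x.2 = c := by omega
            simp only [lines, Finset.mem_image, Finset.mem_filter] at hc
            obtain ⟨y, ⟨_, hlt⟩, hy⟩ := hc
            rw [hy, h3] at hlt
            exact lt_irrefl _ hlt
          · rw [Finset.prod_eq_zero_iff] at h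
            obtain ⟨z, hz, h0⟩ := h
            simp only [pts, Finset.mem_erase, Finset.mem_filter] at hz
            obtain ⟨hne, _, hL⟩ := hz
            have h2 := Int.cast_eq_zero.mp h0
            have h3 : x.2 = z.2 := by omega
            apply hne
            refine Prod.ext ?_ h3.symm
            rw [h3] at hL
            linarith
      · intro y hyS hne
        rw [hp]
        rcases lt_trichotomy (idx (y.1 - P * y.2)) (idx (x.1 - P * x.2)) with h | h | h
        · have : ∏ c ∈ lines P S idx x, (((y.1 - P * y.2) - c : ℤ) : ℚ) = 0 := by
            refine Finset.prod_eq_zero (i := y.1 - P * y.2) ?_ ?_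
            · simp only [lines, Finset.mem_image, Finset.mem_filter]
              exact ⟨y, ⟨hyS, h⟩, rfl⟩
            · rw [sub_self, Int.cast_zero]
          rw [this]
          ring
        · have hL := hinj y hyS x hxS h
          have : ∏ z ∈ pts P S x, ((y.2 - z.2 : ℤ) : ℚ) = 0 := by
            refine Finset.prod_eq_zero (i := y) ?_ (by rw [sub_self, Int.cast_zero])
            simp only [pts, Finset.mem_erase, Finset.mem_filter]
            exact ⟨hne, hyS, hL⟩
          rw [this]
          ring
        · have h2 := hcard y hyS
          have hymem : y ∈ S.filter fun y' => y'.1 - P * y'.2 = y.1 - P * y.2 := by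
            simp [hyS]
          have h3 := Finset.card_pos.mpr ⟨y, hymem⟩
          have : a y = 0 := by
            refine ih (M - idx (y.1 - P * y.2)) ?_ y hyS rfl
            omega
          rw [this]
          ring
      · intro h
        exact absurd hxS h
  intro p hp
  exact main _ p hp rfl

end Pool.Agent.Helper49.Tate.COL
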