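import Pool.Agent.Helper97.Tate.Goals

/-! # TATE-EVU: uniqueness of theta expansions over the field (MP_d3128a_ag). -/

set_option autoImplicit false

namespace Pool.Agent.Helper49.Tate.EVU

open Pool.Agent.Helper97.Tate

theorem ser_zero (k : Type) [Field k] (n : ℤ) : ser (0 : SS k) n = 0 := by
  ext N
  simp [ser, cf]

theorem t (h1 : S_BAS) (h2 : S_EVC) (h3 : S_EVI) : S_EVU := by
  intro k _ x κ c hκ hc v hv
  obtain ⟨δ, hδ⟩ := IsLocalization.exist_integer_multiples (nonZeroDivisors (OO k))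
    (Finset.univ : Finset (Fin κ)) v
  choose a ha using fun r => hδ r (Finset.mem_univ r)
  have e1 : evK x (∑ r : Fin κ, iO (a r) * Th κ ((r : ℕ) : ℤ) c) = 0 := by
    rw [map_sum]
    have e2 : ∀ r : Fin κ, evK x (iO (a r) * Th κ ((r : ℕ) : ℤ) c) =
        PowerSeries.C (algebraMap (OO k) (KK k) δ) *
          (PowerSeries.C (v r) * evK x (Th κ ((r : ℕ) : ℤ) c)) := by
      intro r
      rw [map_mul, (h2 k x 0 0 0).2.2 (a r), ha r, Algebra.smul_def, map_mul, mul_assoc]
    rw [Finset.sum_congr rfl fun r _ => e2 r, ← Finset.mul_sum, hv, mul_zero]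
  have e2 := h3 k x _ e1
  funext r
  have e3 := (h1 k κ c hκ hc).2 a r
  rw [e2, ser_zero] at e3
  have e6 := ha r
  rw [← e3, map_zero, Algebra.smul_def] at e6
  rcases mul_eq_zero.mp e6.symm with h | h
  · exact absurd h (IsLocalization.to_map_ne_zero_of_mem_nonZeroDivisors (KK k) le_rfl δ.2)
  · exact h

end Pool.Agent.Helper49.Tate.EVU
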